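import Pool.Agent.W500.CS.Stm2

/-!
# Project CQ, E3: a function with bounded weak gradient is Lipschitz
-/

set_option autoImplicit false

open MeasureTheory Metric Set Filter Topology Function
open scoped Convolution ContDiff NNReal

namespace Pool.Agent.W414.CQ

open Pool.Agent.W500.CS

/-- Mollifications of a function with bounded weak gradient are Lipschitz. -/
theorem moll (u : ℂ → ℝ) (g : ℂ → ℂ) (z₁ : ℂ) (r : ℝ) (M : NNReal)
    (hu : LocallyIntegrable u volume)
    (hw : ∀ ψ : ℂ → ℝ, ContDiff ℝ 1 ψ → HasCompactSupport ψ → tsupport ψ ⊆ ball z₁ r → ∀ v : ℂ,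
      ∫ z, u z * fderiv ℝ ψ z v = - ∫ z, (g z * v).re * ψ z)
    (hM : ∀ᵐ z : ℂ, z ∈ ball z₁ r → ‖g z‖ ≤ M) (φ : ContDiffBump (0 : ℂ)) :
    LipschitzOnWith M (φ.normed volume ⋆[ContinuousLinearMap.lsmul ℝ ℝ, volume] u)
      (ball z₁ (r - φ.rOut)) := by
  set F : ℂ → ℝ := φ.normed volume with hF
  have hFc : HasCompactSupport F := φ.hasCompactSupport_normed
  have hFs : ContDiff ℝ 1 F := φ.contDiff_normed (n := 1)
  have hFd : Differentiable ℝ F := hFs.differentiable (by simp)
  have hFD : HasCompactSupport (fderiv ℝ F) := hFc.fderiv ℝ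
  have hFDc : Continuous (fderiv ℝ F) := hFs.continuous_fderiv (by simp)
  refine Convex.lipschitzOnWith_of_nnnorm_hasFDerivWithin_le
    (f' := fderiv ℝ F ⋆[(ContinuousLinearMap.lsmul ℝ ℝ).precompL ℂ, volume] u)
    (fun x _ => (hFc.hasFDerivAt_convolution_left _ hFs hu x).hasFDerivWithinAt) ?_
    (convex_ball _ _)
  intro x hx
  rw [← NNReal.coe_le_coe, coe_nnnorm]
  refine ContinuousLinearMap.opNorm_le_bound _ M.coe_nonneg (fun v => ?_)
  -- the test function
  have hψ' : ∀ z, HasFDerivAt (fun z => F (x - z)) ((fderiv ℝ F (x - z)).comp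
      (-(ContinuousLinearMap.id ℝ ℂ))) z := by
    intro z
    have h1 : HasFDerivAt (fun z : ℂ => x - z) (-(ContinuousLinearMap.id ℝ ℂ)) z :=
      (hasFDerivAt_id z).const_sub x
    exact (hFd (x - z)).hasFDerivAt.comp z h1
  have hψv : ∀ z, fderiv ℝ (fun z => F (x - z)) z v = - (fderiv ℝ F (x - z) v) := by
    intro z
    rw [(hψ' z).fderiv]
    simp
  have hψs : ContDiff ℝ 1 (fun z => F (x - z)) := hFs.comp (contDiff_const.sub contDiff_id)
  have hsupp : ∀ z, F (x - z) ≠ 0 → z ∈ closedBall x φ.rOut := by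
    intro z hz
    have h1 : x - z ∈ support F := hz
    rw [hF, φ.support_normed_eq, mem_ball_zero_iff] at h1
    rw [mem_closedBall, dist_comm, dist_eq_norm]
    exact h1.le
  have hts : tsupport (fun z => F (x - z)) ⊆ closedBall x φ.rOut :=
    closure_minimal (fun z hz => hsupp z hz) isClosed_closedBall
  have hsub : closedBall x φ.rOut ⊆ ball z₁ r := by
    intro z hz
    rw [mem_ball] at hx ⊢
    rw [mem_closedBall] at hz
    have := dist_triangle z x z₁
    linarith
  have hψc : HasCompactSupport (fun z => F (x - z)) :=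
    (isCompact_closedBall x φ.rOut).of_isClosed_subset (isClosed_tsupport _) hts
  have h1 := hw _ hψs hψc (hts.trans hsub) v
  have hex : Integrable (fun t => (ContinuousLinearMap.lsmul ℝ ℝ).precompL ℂ
      (fderiv ℝ F (x - t)) (u t)) volume := by
    have h2 : ConvolutionExistsAt (fderiv ℝ F) u x
        ((ContinuousLinearMap.lsmul ℝ ℝ).precompL ℂ) volume :=
      hFD.convolutionExists_left _ hFDc hu x
    exact h2.integrable_swap
  have h2 : (fderiv ℝ F ⋆[(ContinuousLinearMap.lsmul ℝ ℝ).precompL ℂ, volume] u) x v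
      = ∫ z, (g z * v).re * F (x - z) := by
    rw [convolution_eq_swap, ContinuousLinearMap.integral_apply hex, ← neg_inj, ← h1,
      ← integral_neg]
    apply integral_congr_ae
    filter_upwards with t
    rw [hψv, ContinuousLinearMap.precompL_apply, ContinuousLinearMap.lsmul_apply, smul_eq_mul]
    ring
  rw [h2]
  have hint : ∫ z, F (x - z) = 1 := by
    rw [integral_sub_left_eq_self (fun z => F z) volume x]
    exact φ.integral_normed
  have hbi : Integrable (fun z => (M : ℝ) * ‖v‖ * F (x - z)) volume :=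
    (hψs.continuous.integrable_of_hasCompactSupport hψc).const_mul _
  have h3 : ‖∫ z, (g z * v).re * F (x - z)‖ ≤ ∫ z, (M : ℝ) * ‖v‖ * F (x - z) := by
    apply norm_integral_le_of_norm_le hbi
    filter_upwards [hM] with z hz
    by_cases h0 : F (x - z) = 0
    · rw [h0]; simp
    · have hz' := hz (hsub (hsupp z h0))
      have hnn : 0 ≤ F (x - z) := φ.nonneg_normed _
      rw [norm_mul, Real.norm_of_nonneg hnn]
      refine mul_le_mul_of_nonneg_right ?_ hnn
      calc ‖(g z * v).re‖ ≤ ‖g z * v‖ := Complex.abs_re_le_norm _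
        _ = ‖g z‖ * ‖v‖ := norm_mul _ _
        _ ≤ M * ‖v‖ := mul_le_mul_of_nonneg_right hz' (norm_nonneg _)
  rw [integral_const_mul, hint, mul_one] at h3
  exact h3

theorem locallyIntegrable_re {g : ℂ → ℂ} (hg : LocallyIntegrable g volume) (v : ℂ) :
    LocallyIntegrable (fun z => (g z * v).re) volume := by
  intro x
  obtain ⟨s, hs, h⟩ := hg x
  refine ⟨s, hs, ?_⟩
  have h1 : IntegrableOn (fun z => g z * v) s volume := h.mul_const v
  exact h1.re

theorem main : S_LIPR := by
  intro u g z₁ r M hr hu hg hw hM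
  -- the mollifiers
  have he : ∀ n : ℕ, (0 : ℝ) < 1 / ((n : ℝ) + 1) := fun n => by positivity
  let φ : ℕ → ContDiffBump (0 : ℂ) := fun n =>
    ⟨1 / ((n : ℝ) + 1) / 2, 1 / ((n : ℝ) + 1), half_pos (he n), half_lt_self (he n)⟩
  have hφ0 : Tendsto (fun n => (φ n).rOut) atTop (𝓝 0) := tendsto_one_div_add_atTop_nhds_zero_nat
  have hφK : ∀ᶠ n in atTop, (φ n).rOut ≤ 2 * (φ n).rIn := by
    filter_upwards with n
    change 1 / ((n : ℝ) + 1) ≤ 2 * (1 / ((n : ℝ) + 1) / 2)
    linarith
  have hae := ContDiffBump.ae_convolution_tendsto_right_of_locallyIntegrable (μ := volume)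
    hφ0 hφK hu
  set S : Set ℂ := {x | Tendsto (fun i => ((φ i).normed volume ⋆[ContinuousLinearMap.lsmul ℝ ℝ,
    volume] u) x) atTop (𝓝 (u x))} with hS
  have hlip : LipschitzOnWith M u (S ∩ ball z₁ r) := by
    rw [lipschitzOnWith_iff_dist_le_mul]
    rintro x ⟨hxS, hx⟩ y ⟨hyS, hy⟩
    have h1 : Tendsto (fun i => dist
        (((φ i).normed volume ⋆[ContinuousLinearMap.lsmul ℝ ℝ, volume] u) x)
        (((φ i).normed volume ⋆[ContinuousLinearMap.lsmul ℝ ℝ, volume] u) y)) atTop
        (𝓝 (dist (u x) (u y))) := Tendsto.dist hxS hyS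
    refine le_of_tendsto h1 ?_
    rw [mem_ball] at hx hy
    have e1 : ∀ᶠ i in atTop, (φ i).rOut < r - dist x z₁ :=
      hφ0.eventually (gt_mem_nhds (by linarith))
    have e2 : ∀ᶠ i in atTop, (φ i).rOut < r - dist y z₁ :=
      hφ0.eventually (gt_mem_nhds (by linarith))
    filter_upwards [e1, e2] with i h1 h2
    exact (moll u g z₁ r M hu hw hM (φ i)).dist_le_mul x (by rw [mem_ball]; linarith) y
      (by rw [mem_ball]; linarith)
  obtain ⟨L, hL, hLu⟩ := hlip.extend_real
  have huL : ∀ᵐ z : ℂ, z ∈ ball z₁ r → u z = L z := by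
    filter_upwards [hae] with z hz hzr
    exact hLu ⟨hz, hzr⟩
  -- the derivative in a fixed direction
  have hdir : ∀ v : ℂ, ∀ᵐ z : ℂ, z ∈ ball z₁ r → lineDeriv ℝ L z v - (g z * v).re = 0 := by
    intro v
    have hli1 : LocallyIntegrable (fun z => lineDeriv ℝ L z v) volume :=
      hL.locallyIntegrable_lineDeriv v
    have hli2 := locallyIntegrable_re hg v
    refine isOpen_ball.ae_eq_zero_of_integral_contDiff_smul_eq_zero
      ((hli1.sub hli2).locallyIntegrableOn _) ?_
    intro ψ hψ hψc hψt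
    have hψ1 : ContDiff ℝ 1 ψ := hψ.of_le (by exact_mod_cast le_top)
    have hi1 : Integrable (fun z => ψ z • lineDeriv ℝ L z v) volume :=
      hli1.integrable_smul_left_of_hasCompactSupport hψ.continuous hψc
    have hi2 : Integrable (fun z => ψ z • (g z * v).re) volume :=
      hli2.integrable_smul_left_of_hasCompactSupport hψ.continuous hψc
    have e1 : ∫ z, ψ z • (lineDeriv ℝ L z v - (g z * v).re) =
        (∫ z, ψ z • lineDeriv ℝ L z v) - ∫ z, ψ z • (g z * v).re := by
      rw [← integral_sub hi1 hi2]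
      apply integral_congr_ae
      filter_upwards with z
      rw [smul_sub]
    rw [e1, sub_eq_zero]
    obtain ⟨D, hD⟩ := ContDiff.lipschitzWith_of_hasCompactSupport hψc hψ1 (by simp)
    have e2 := LipschitzWith.integral_lineDeriv_mul_eq (μ := volume) hL hD hψc v
    have e3 : ∫ z, ψ z • lineDeriv ℝ L z v = ∫ z, lineDeriv ℝ L z v * ψ z := by
      apply integral_congr_ae
      filter_upwards with z
      rw [smul_eq_mul, mul_comm]
    rw [e3, e2]
    have e4 := hw ψ hψ1 hψc hψt v
    have e5 : ∫ z, ψ z • (g z * v).re = ∫ z, (g z * v).re * ψ z := by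
      apply integral_congr_ae
      filter_upwards with z
      rw [smul_eq_mul, mul_comm]
    rw [e5, ← neg_inj, ← e4, ← integral_neg]
    apply integral_congr_ae
    filter_upwards [huL] with z hz
    have hd : DifferentiableAt ℝ ψ z := (hψ1.differentiable (by simp)).differentiableAt
    rw [hd.lineDeriv_eq_fderiv, map_neg]
    by_cases h0 : z ∈ ball z₁ r
    · rw [hz h0]; ring
    · have h1 : z ∉ tsupport ψ := fun h => h0 (hψt h)
      have h2 : fderiv ℝ ψ z = 0 := by
        by_contra h3
        exact h1 (tsupport_fderiv_subset ℝ (subset_tsupport _ h3))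
      rw [h2]; simp
  refine ⟨L, hL.lipschitzOnWith, huL, ?_⟩
  filter_upwards [hdir 1, hdir Complex.I, hL.ae_differentiableAt] with z h1 hI hd hz
  have h1' := h1 hz
  have hI' := hI hz
  rw [hd.lineDeriv_eq_fderiv, sub_eq_zero] at h1' hI'
  have e : fderiv ℝ L z = gr (g z) := by
    refine ContinuousLinearMap.ext (fun v => ?_)
    have hv : v = v.re • (1 : ℂ) + v.im • Complex.I := by apply Complex.ext <;> simp
    rw [hv, map_add, map_smul, map_smul, map_add, map_smul, map_smul, h1', hI', gr_apply,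
      gr_apply]
  rw [← e]
  exact hd.hasFDerivAt

end Pool.Agent.W414.CQ
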